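import Mathlib
import Pool.Agent.H58.SemiIndep

set_option autoImplicit false

namespace Pool.Agent.Results.MP_84e5ad_an.Independent

open Pool.Agent.H58.SemiIndep NNReal

theorem result (𝕜 : Type) [RCLike 𝕜] (X : Type) [NormedAddCommGroup X] [NormedSpace 𝕜 X]
    [CompleteSpace X] [Nontrivial X] (T : ℝ≥0 → X →L[𝕜] X) (h0 : ∀ x, T 0 x = x)
    (hadd : ∀ s t x, T (s + t) x = T s (T t x)) (hc : ∀ x, Continuous fun t => T t x)
    (z : X) (hz : Dense (Set.range fun t => T t z)) :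
    LinearIndependent 𝕜 (fun t : ℝ≥0 => T t z) ∧
      LinearIndepOn 𝕜 id (Set.range fun t : ℝ≥0 => T t z) := by
  classical
  suffices h : LinearIndependent 𝕜 (fun t : ℝ≥0 => T t z) from ⟨h, h.linearIndepOn_id⟩
  refine linearIndependent_iff'.2 fun s g hg j hj => by_contra fun hgj => ?_
  have _ := h0
  set s' := s.filter (fun i => g i ≠ 0) with hs'
  have hne : s'.Nonempty := ⟨j, Finset.mem_filter.2 ⟨hj, hgj⟩⟩
  have rel : ∀ x, ∑ i ∈ s', g i • T i x = 0 := fun x => by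
    refine hz.induction (P := fun x => ∑ i ∈ s', g i • T i x = 0) ?_
      (isClosed_eq (by fun_prop) continuous_const) x
    rintro _ ⟨t, rfl⟩
    have := congrArg (T t) hg
    rw [map_sum, map_zero] at this
    rw [hs', Finset.sum_filter]
    refine Eq.trans (Finset.sum_congr rfl fun i _ => ?_) this
    rw [map_smul, ← hadd t i, add_comm, hadd i t]
    split_ifs with h
    · rfl
    · rw [not_not.1 h, zero_smul]
  obtain ⟨a, ha⟩ : ∃ a, a = s'.min' hne := ⟨_, rfl⟩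
  obtain ⟨b, hb⟩ : ∃ b, b = s'.max' hne := ⟨_, rfl⟩
  have a1 : a ∈ s' := ha ▸ s'.min'_mem hne
  have b1 : b ∈ s' := hb ▸ s'.max'_mem hne
  have a2 : ∀ i ∈ s', a ≤ i := fun i hi => ha ▸ s'.min'_le i hi
  have b2 : ∀ i ∈ s', i ≤ b := fun i hi => hb ▸ s'.le_max' i hi
  obtain ⟨M, hM⟩ := banach_steinhaus (g := fun u : Set.Icc 0 b => T u) fun x => by
    obtain ⟨C, hC⟩ := (isCompact_Icc (a := 0) (b := b)).exists_bound_of_continuousOn
      (hc x).continuousOn
    exact ⟨C, fun u => hC u u.2⟩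
  obtain ⟨x₀, hx₀⟩ := exists_ne (0 : X)
  obtain ⟨φ₀, hφ₀⟩ := SeparatingDual.exists_ne_zero (R := 𝕜) hx₀
  have em : ∀ u v : 𝕜, RCLike.map 𝕜 ℂ (u * v) = RCLike.map 𝕜 ℂ u * RCLike.map 𝕜 ℂ v := fun u v => by
    apply Complex.ext <;> simp
  have e0 : ∀ u : 𝕜, RCLike.map 𝕜 ℂ u = 0 → u = 0 := fun u h => by
    have h1 := congrArg Complex.re h
    have h2 := congrArg Complex.im h
    apply RCLike.ext
    · simpa using h1
    · simpa using h2
  let T' : ℝ → X →+ X := fun u => (T u.toNNReal).toLinearMap.toAddMonoidHom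
  let φ : X →+ ℂ := (RCLike.map 𝕜 ℂ).toLinearMap.toAddMonoidHom.comp φ₀.toLinearMap.toAddMonoidHom
  have φc : Continuous φ := (RCLike.map 𝕜 ℂ).continuous.comp φ₀.continuous
  have φb : ∀ x, ‖φ x‖ ≤ ‖RCLike.map 𝕜 ℂ‖ * ‖φ₀‖ * ‖x‖ := fun x => by
    rw [mul_assoc]; exact (RCLike.map 𝕜 ℂ).le_of_opNorm_le_of_le le_rfl (φ₀.le_opNorm x)
  have hz' : Dense ((fun t => T' t z) '' Set.Ici 0) := hz.mono (by
    rintro _ ⟨t, rfl⟩
    exact ⟨t, t.2, by simp [T']⟩)
  have Tb : ∀ u, u ≤ b → ∀ x, ‖T u x‖ ≤ M * ‖x‖ := fun u hu x =>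
    (T u).le_of_opNorm_le (hM ⟨u, zero_le, hu⟩) x
  have key := core T' z hz' (fun s t hs ht x => by
      change T (s + t).toNNReal x = T _ (T _ x)
      rw [Real.toNNReal_add hs ht, hadd])
    (φ.comp (T a).toLinearMap.toAddMonoidHom) (φc.comp (T a).continuous)
    (fun x => φc.comp ((T a).continuous.comp ((hc x).comp continuous_real_toNNReal)))
    s' (fun i => RCLike.map 𝕜 ℂ (g i)) (fun i => i - a) (b - a) a b a1 b1 (sub_self _) rfl
    (fun i hi h => sub_pos.2 (by exact_mod_cast lt_of_le_of_ne (a2 i hi) h.symm))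
    (fun i hi h => sub_lt_sub_right (by exact_mod_cast lt_of_le_of_ne (b2 i hi) h) _)
    (fun h => (Finset.mem_filter.1 a1).2 (e0 _ h)) (fun h => (Finset.mem_filter.1 b1).2 (e0 _ h))
    (‖RCLike.map 𝕜 ℂ‖ * ‖φ₀‖ * M) (fun u hu x => by
      change ‖φ (T a (T u.toNNReal x))‖ ≤ _
      rw [← hadd, mul_assoc _ M]
      refine (φb _).trans (mul_le_mul_of_nonneg_left (Tb _ ?_ x) (by positivity))
      rw [← NNReal.coe_le_coe, NNReal.coe_add, Real.coe_toNNReal _ hu.1]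
      linarith [hu.2])
    (fun x => by
      have := congrArg φ (rel x)
      rw [map_sum, map_zero] at this
      refine Eq.trans (Finset.sum_congr rfl fun i hi => ?_) this
      change _ * RCLike.map 𝕜 ℂ (φ₀ (T a (T ((i : ℝ) - a).toNNReal x))) =
        RCLike.map 𝕜 ℂ (φ₀ (g i • T i x))
      rw [map_smul, smul_eq_mul, em, ← hadd, ← NNReal.coe_sub (a2 i hi), Real.toNNReal_coe,
        add_tsub_cancel_of_le (a2 i hi)])
  refine hφ₀ (e0 _ (zero_of_bd T' z hz' φ φc 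
    (‖RCLike.map 𝕜 ℂ‖ * ‖φ₀‖ * (M * ‖z‖)) (fun t _ => ?_) x₀))
  change ‖φ (T t.toNNReal z)‖ ≤ _
  rcases le_total t.toNNReal a with h | h
  · exact (φb _).trans (mul_le_mul_of_nonneg_left (Tb _ (h.trans (b2 a a1)) z) (by positivity))
  · rw [← add_tsub_cancel_of_le h, hadd]
    have : φ (T a (T (t.toNNReal - a) z)) = 0 := key _
    rw [this, norm_zero]
    exact mul_nonneg (by positivity) ((norm_nonneg _).trans (Tb a (b2 a a1) z))

end Pool.Agent.Results.MP_84e5ad_an.Independent
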